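import Pool.Agent.Helper94.WI.Base

/-!
# Arithmetic in a model of `IΣ₁`
-/

set_option autoImplicit false

namespace WI

universe u

/-- `M` is a model of `IΣ₁` -/
class IS1 (M : Type u) [CommSemiring M] [LinearOrder M] : Prop extends
    IsStrictOrderedRing M, CanonicallyOrderedAdd M where
  ind1 : Ind1 (∅ : Set (Set M))

section Closure

variable {M : Type u} [CommSemiring M] [LinearOrder M] {𝒜 ℬ : Set (Set M)}

theorem D0.mono (h : 𝒜 ⊆ ℬ) {p : (ℕ → M) → Prop} (hp : D0 𝒜 p) : D0 ℬ p := by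
  induction hp with
  | eq hf hg => exact .eq hf hg
  | lt hf hg => exact .lt hf hg
  | mem hA hf => exact .mem (h hA) hf
  | not _ ih => exact .not ih
  | and _ _ ih1 ih2 => exact .and ih1 ih2
  | ball hf _ ih => exact .ball hf ih

theorem D0.congr {p q : (ℕ → M) → Prop} (hp : D0 𝒜 p) (h : ∀ v, q v ↔ p v) : D0 𝒜 q := by
  have : q = p := funext fun v => propext (h v)
  rwa [this]

theorem D0.or {p q : (ℕ → M) → Prop} (hp : D0 𝒜 p) (hq : D0 𝒜 q) :
    D0 𝒜 (fun v => p v ∨ q v) :=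
  (hp.not.and hq.not).not.congr fun v => by tauto

theorem D0.imp {p q : (ℕ → M) → Prop} (hp : D0 𝒜 p) (hq : D0 𝒜 q) :
    D0 𝒜 (fun v => p v → q v) :=
  (hp.not.or hq).congr fun v => by tauto

theorem D0.bex {f : (ℕ → M) → M} {p : (ℕ → M) → Prop} (hf : Tm f) (hp : D0 𝒜 p) :
    D0 𝒜 (fun v => ∃ x < f v, p (cns x v)) :=
  (D0.ball hf hp.not).not.congr fun v => by push Not; rfl

theorem D0.le {f g : (ℕ → M) → M} (hf : Tm f) (hg : Tm g) : D0 𝒜 (fun v => f v ≤ g v) :=
  (D0.lt hg hf).not.congr fun v => by simp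

theorem D0.tru : D0 𝒜 (fun _ : ℕ → M => True) :=
  (D0.eq (Tm.const 0) (Tm.const 0)).congr fun v => by simp

/-- substitution of terms -/
theorem Tm.subst {f : (ℕ → M) → M} (hf : Tm f) {g : (ℕ → M) → ℕ → M} (hg : ∀ i, Tm fun v => g v i) :
    Tm fun v => f (g v) := by
  induction hf with
  | var i => exact hg i
  | const a => exact .const a
  | add _ _ ih1 ih2 => exact ih1.add ih2
  | mul _ _ ih1 ih2 => exact ih1.mul ih2

theorem Tm.tl {f : (ℕ → M) → M} (hf : Tm f) : Tm fun v => f (tl v) :=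
  hf.subst fun i => Tm.var (i + 1)

theorem D0.subst {p : (ℕ → M) → Prop} (hp : D0 𝒜 p) : ∀ {g : (ℕ → M) → ℕ → M},
    (∀ i, Tm fun v => g v i) → D0 𝒜 fun v => p (g v) := by
  induction hp with
  | eq hf hg => exact fun h => .eq (hf.subst h) (hg.subst h)
  | lt hf hg => exact fun h => .lt (hf.subst h) (hg.subst h)
  | mem hA hf => exact fun h => .mem hA (hf.subst h)
  | not _ ih => exact fun h => .not (ih h)
  | and _ _ ih1 ih2 => exact fun h => .and (ih1 h) (ih2 h)
  | @ball f p hf hp ih =>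
    intro g h
    have h2 := ih (g := fun v => cns (v 0) (g (WI.tl v))) (by
      rintro (_ | i)
      · exact .var 0
      · exact (h i).tl)
    exact (D0.ball (hf.subst h) h2).congr fun v => Iff.rfl

end Closure

end WI
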