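import Mathlib

/-!
# Second order arithmetic in an ordered semiring, semantically

`M` is a discretely ordered commutative semiring (a model of `P^-`).
-/

set_option autoImplicit false

namespace WI

universe u

/-- put `x` in front of the assignment `v` -/
def cns {M : Type u} (x : M) (v : ℕ → M) : ℕ → M
  | 0 => x
  | n + 1 => v n

/-- forget the first entry -/
def tl {M : Type u} (v : ℕ → M) : ℕ → M := fun n => v (n + 1)

section Defs

variable {M : Type u} [CommSemiring M] [LinearOrder M]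

/-- functions of an assignment given by terms with parameters from `M` -/
inductive Tm : ((ℕ → M) → M) → Prop
  | var (i : ℕ) : Tm (fun v => v i)
  | const (a : M) : Tm (fun _ => a)
  | add {f g : (ℕ → M) → M} : Tm f → Tm g → Tm (fun v => f v + g v)
  | mul {f g : (ℕ → M) → M} : Tm f → Tm g → Tm (fun v => f v * g v)

/-- relations defined by bounded formulas with number parameters from `M` and set parameters
from `𝒜` -/
inductive D0 (𝒜 : Set (Set M)) : ((ℕ → M) → Prop) → Prop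
  | eq {f g : (ℕ → M) → M} : Tm f → Tm g → D0 𝒜 (fun v => f v = g v)
  | lt {f g : (ℕ → M) → M} : Tm f → Tm g → D0 𝒜 (fun v => f v < g v)
  | mem {f : (ℕ → M) → M} {A : Set M} : A ∈ 𝒜 → Tm f → D0 𝒜 (fun v => f v ∈ A)
  | not {p : (ℕ → M) → Prop} : D0 𝒜 p → D0 𝒜 (fun v => ¬ p v)
  | and {p q : (ℕ → M) → Prop} : D0 𝒜 p → D0 𝒜 q → D0 𝒜 (fun v => p v ∧ q v)
  | ball {f : (ℕ → M) → M} {p : (ℕ → M) → Prop} : Tm f → D0 𝒜 p →
      D0 𝒜 (fun v => ∀ x < f v, p (cns x v))

/-- `Σ⁰₁` subsets of `M`: number parameters from `M`, set parameters from `𝒜` -/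
def Sg1 (𝒜 : Set (Set M)) (p : M → Prop) : Prop :=
  ∃ q, D0 𝒜 q ∧ ∀ x, p x ↔ ∃ y, q (cns y (cns x fun _ => 0))

/-- `Σ⁰₁` induction -/
def Ind1 (𝒜 : Set (Set M)) : Prop :=
  ∀ p : M → Prop, Sg1 𝒜 p → p 0 → (∀ x, p x → p (x + 1)) → ∀ x, p x

end Defs

end WI
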